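import Pool.Agent.Helper45.AM.GoalsA
import Pool.Agent.Helper45.AM.GoalsD
import Pool.Agent.Helper15.AM.GoalsG

/-!
# Project AM (MP_cc6379_al): packet AM-D6, approximation by chosen elements.
-/

set_option autoImplicit false

open LaurentPolynomial Pool.Agent.Helper15.RA Pool.Agent.Helper45.AM Pool.Agent.Helper15.AM

noncomputable section

namespace Pool.Agent.Helper25.AM

section gen

variable {S W H : Type} [Group W] [Ring H] [Algebra ℤ[T;T⁻¹] H]

/-- all `T`-coordinates of `Z` have degree at most `k` -/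
def DZ (X : AC S W H) (k : ℤ) (Z : H) : Prop := ∀ w, DegLE k (X.D.t.repr Z w)

theorem DZ.mono {X : AC S W H} {k l : ℤ} {Z : H} (h : DZ X k Z) (hkl : k ≤ l) : DZ X l Z :=
  fun w => (h w).mono hkl

theorem DZ.add {X : AC S W H} {k : ℤ} {Z Y : H} (hZ : DZ X k Z) (hY : DZ X k Y) : DZ X k (Z + Y) := by
  intro w
  rw [map_add, Finsupp.add_apply]
  exact (hZ w).add (hY w)

theorem DZ.smul {X : AC S W H} {k l : ℤ} {p : ℤ[T;T⁻¹]} {Z : H} (hp : DegLE k p) (hZ : DZ X l Z) :
    DZ X (k + l) (p • Z) := by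
  intro w
  rw [map_smul, Finsupp.smul_apply, smul_eq_mul]
  exact hp.mul (hZ w)

theorem DZ.zero (X : AC S W H) (k : ℤ) : DZ X k 0 := by
  intro w
  rw [map_zero, Finsupp.zero_apply]
  exact DegLE.zero k

theorem DZ.sum {X : AC S W H} {k : ℤ} {ι : Type*} {s : Finset ι} {f : ι → H} (h : ∀ i ∈ s, DZ X k (f i)) :
    DZ X k (∑ i ∈ s, f i) := by
  classical
  induction s using Finset.induction_on with
  | empty => exact DZ.zero X k
  | insert i s hi ih =>
    rw [Finset.sum_insert hi]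
    exact (h i (Finset.mem_insert_self i s)).add (ih fun j hj => h j (Finset.mem_insert_of_mem hj))

theorem expand (X : AC S W H) (Z : H) :
    Z = ∑ w ∈ (X.D.t.repr Z).support, X.D.t.repr Z w • X.D.t w := by
  conv_lhs => rw [← X.D.t.linearCombination_repr Z]
  rw [Finsupp.linearCombination_apply]
  rfl

theorem DZ.mul_t {X : AC S W H} {k : ℤ} {N : ℕ} {Z : H}
    (hN : ∀ x y z, DegLE N (X.D.t.repr (X.D.t x * X.D.t y) z)) (h : DZ X k Z) (y : W) :
    DZ X (k + N) (Z * X.D.t y) := by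
  rw [expand X Z, Finset.sum_mul]
  refine DZ.sum fun w _ => ?_
  rw [smul_mul_assoc]
  exact DZ.smul (h w) (fun z => hN w y z)

theorem DZ.t_mul {X : AC S W H} {k : ℤ} {N : ℕ} {Z : H}
    (hN : ∀ x y z, DegLE N (X.D.t.repr (X.D.t x * X.D.t y) z)) (h : DZ X k Z) (x : W) :
    DZ X (k + N) (X.D.t x * Z) := by
  rw [expand X Z, Finset.mul_sum]
  refine DZ.sum fun w _ => ?_
  rw [mul_smul_comm]
  exact DZ.smul (h w) (fun z => hN x w z)

/-- the coordinates of the `T_x c_g T_y` have bounded degree -/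
theorem exists_bound (hH2 : H_2) (X : AC S W H) (hB : X.D.Bdd) :
    ∃ C : ℕ, ∀ x g y, DZ X C (X.B x g y) := by
  obtain ⟨N, hN⟩ := hB
  obtain ⟨-, -, -, h4, -, h6, -⟩ := hH2 S W H X.M X.cs X.L X.wt X.D
  refine ⟨N + N, fun x g y => ?_⟩
  have h0 : DZ X 0 (X.D.c g) := by
    intro w
    by_cases hw : w = g
    · subst hw
      rw [h4]
      exact DegLE.one le_rfl
    · exact (h6 g w hw).mono (by norm_num)
  have h1 : DZ X (0 + N + N) (X.D.t x * X.D.c g * X.D.t y) := (h0.t_mul hN x).mul_t hN y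
  exact DZ.mono h1 (by push_cast; omega)

/-- the elements which can be approximated -/
def ApS (X : AC S W H) (M n : ℕ) : Submodule ℤ[T;T⁻¹] H where
  carrier := {Z | X.Ap M n Z}
  add_mem' := by
    intro a b ha hb r
    obtain ⟨Y, hY, h1⟩ := ha r
    obtain ⟨Y', hY', h2⟩ := hb r
    refine ⟨Y + Y', add_mem hY hY', fun w => ?_⟩
    rw [add_sub_add_comm, map_add, Finsupp.add_apply]
    exact (h1 w).add (h2 w)
  zero_mem' := by
    intro r
    exact ⟨0, zero_mem _, fun w => by simpa using DegLE.zero _⟩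
  smul_mem' := by
    intro p Z hZ r
    obtain ⟨k, hk⟩ := exists_degLE p
    obtain ⟨Y, hY, h1⟩ := hZ (r + k.toNat)
    refine ⟨p • Y, Submodule.smul_mem _ _ hY, fun w => ?_⟩
    rw [← smul_sub, map_smul, Finsupp.smul_apply, smul_eq_mul]
    exact hk.mul_le (h1 w) (by push_cast; omega)

theorem mem_ApS {X : AC S W H} {M n : ℕ} {Z : H} : Z ∈ ApS X M n ↔ X.Ap M n Z := Iff.rfl

theorem ApS_mono {X : AC S W H} {M n n' : ℕ} (h : n' ≤ n) : ApS X M n' ≤ ApS X M n := by
  intro Z hZ r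
  obtain ⟨Y, hY, h1⟩ := hZ r
  refine ⟨Y, Submodule.span_mono ?_ hY, h1⟩
  rintro _ ⟨x, g, y, hc, hn, rfl⟩
  exact ⟨x, g, y, hc, hn.trans h, rfl⟩

theorem ApS_of_Ch {X : AC S W H} {M n : ℕ} {x g y : W} (hc : X.Ch M x g y) (hn : X.nn x g y ≤ n) :
    X.B x g y ∈ ApS X M n := by
  intro r
  refine ⟨X.B x g y, Submodule.subset_span ⟨x, g, y, hc, hn, rfl⟩, fun w => ?_⟩
  rw [sub_self, map_zero, Finsupp.zero_apply]
  exact DegLE.zero _

theorem ApS_of_approx {X : AC S W H} {M n : ℕ} {Z : H}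
    (h : ∀ r : ℕ, ∃ Y ∈ ApS X M n, DZ X (-(r : ℤ)) (Z - Y)) : Z ∈ ApS X M n := by
  intro r
  obtain ⟨Y, hY, h1⟩ := h r
  obtain ⟨Y', hY', h2⟩ := hY r
  refine ⟨Y', hY', ?_⟩
  have h3 : DZ X (-(r : ℤ)) ((Z - Y) + (Y - Y')) := h1.add h2
  rwa [sub_add_sub_cancel] at h3

theorem nn_tp {X : AC S W H} {x g y : W} (hg : g ∉ par X.cs X.K) : X.nn x g y = X.sl x + 1 + X.sl y := by
  unfold AC.nn
  rw [if_neg hg]

/-- `Φ e = ∑ e(r) T_(r.1) c_(r.2) T_y` -/
def Phi (X : AC S W H) (y : W) : (W × W →₀ ℤ[T;T⁻¹]) →ₗ[ℤ[T;T⁻¹]] H :=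
  Finsupp.linearCombination ℤ[T;T⁻¹] (fun r : W × W => X.B r.1 r.2 y)

theorem Phi_eq (X : AC S W H) (y : W) (e : W × W →₀ ℤ[T;T⁻¹]) :
    Phi X y e = e.sum fun r p => p • X.B r.1 r.2 y := Finsupp.linearCombination_apply _ _

theorem Phi_eq_sum (X : AC S W H) (y : W) (e : W × W →₀ ℤ[T;T⁻¹]) :
    Phi X y e = ∑ r ∈ e.support, e r • X.B r.1 r.2 y := Phi_eq X y e

theorem CC_mono {X : AC S W H} {M n n' : ℕ} (h : X.CC M n) (hn : n' ≤ n) : X.CC M n' :=
  fun u hu hg => h u (hu.trans_le hn) hg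

/-- the type `b` triples `(x, g, y)` with `sl x = s` and `α g > M` -/
def GoodP (X : AC S W H) (M s : ℕ) (b : Bool) (y : W) (r : W × W) : Prop :=
  X.Tp b r.1 r.2 y ∧ X.sl r.1 = s ∧ M < X.α r.2

/-- the iteration of the rewriting -/
theorem iter (hPC : G_PC) (hD5 : D_5) (X : AC S W H) (M n s : ℕ) (b : Bool) (y : W) (hCC : X.CC M n)
    (lk : W → W) (hlk : ∀ w, lk w ∈ par X.cs X.K ∧ ∃ β, XL X.cs X.K β ∧ w = lk w * β)
    (hLI : X.LI M n s ≤ ApS X M n) (hn : s + 1 + X.sl y = n) (d : ℕ) :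
    ∀ q : W × W, GoodP X M s b y q → ∃ e : W × W →₀ ℤ[T;T⁻¹],
      (∀ r ∈ e.support, GoodP X M s b y r) ∧
      (∀ r, DegLE ((X.α (lk r.2) : ℤ) - X.α (lk q.2) - d) (e r)) ∧
      X.B q.1 q.2 y - Phi X y e ∈ ApS X M n := by
  classical
  induction d with
  | zero =>
    intro q hq
    refine ⟨Finsupp.single q 1, ?_, ?_, ?_⟩
    · intro r hr
      have h1 := Finsupp.support_single_subset hr
      rw [Finset.mem_singleton] at h1
      rwa [h1]
    · intro r
      by_cases hr : q = r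
      · subst hr
        rw [Finsupp.single_eq_same]
        exact DegLE.one (by simp)
      · rw [Finsupp.single_apply, if_neg hr]
        exact DegLE.zero _
    · have h1 : Phi X y (Finsupp.single q 1) = X.B q.1 q.2 y := by
        unfold Phi
        rw [Finsupp.linearCombination_single, one_smul]
      rw [h1, sub_self]
      exact zero_mem _
  | succ d ih =>
    intro q hq
    obtain ⟨htp, hs, hM⟩ := hq
    have hnn : X.nn q.1 q.2 y = n := by rw [nn_tp htp.2.2.1, hs, hn]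
    by_cases hch : X.Ch M q.1 q.2 y
    · refine ⟨0, ?_, ?_, ?_⟩
      · intro r hr
        simp at hr
      · intro r
        exact DegLE.zero _
      · rw [map_zero, sub_zero]
        exact ApS_of_Ch hch hnn.le
    · -- the element is rewritten
      have hx1 : q.1 ≠ 1 := by
        intro h
        exact hch ⟨hM, Or.inr ⟨b, htp, Or.inl h⟩⟩
      have hex : ∃ κ β, κ ∈ par X.cs X.K ∧ XL X.cs X.K β ∧ q.2 = κ * β ∧ X.Ge (M + 1) (q.1 * κ) := by
        by_contra hcon
        push Not at hcon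
        exact hch ⟨hM, Or.inr ⟨b, htp, Or.inr fun κ β h1 h2 h3 => hcon κ β h1 h2 h3⟩⟩
      obtain ⟨κ, β, hκ, hβ, hg, hge⟩ := hex
      obtain ⟨-, -, -, -, -, huniq, -⟩ := hPC S W X.M X.cs X.K
      have hlkq : lk q.2 = κ := by
        obtain ⟨h1, β', h2, h3⟩ := hlk q.2
        exact ((huniq β' β (lk q.2) κ h2 hβ h1 hκ (by rw [← h3, ← hg])).2)
      obtain ⟨e', he1, he2⟩ := hD5 S W H X M n b q.1 q.2 y κ β hCC htp hM hnn hx1 hκ hβ hg hge
      rw [← Phi_eq, hs] at he2
      have hgood : ∀ r ∈ e'.support, GoodP X M s b y r := by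
        intro r hr
        obtain ⟨h1, h2, h3, h4, h5, -⟩ := he1 r hr
        exact ⟨⟨h1, h2, h3, htp.2.2.2⟩, h4.trans hs, h5⟩
      have hdeg' : ∀ r, DegLE ((X.α (lk r.2) : ℤ) - X.α (lk q.2) - 1) (e' r) := by
        intro r
        by_cases hr : r ∈ e'.support
        · obtain ⟨-, -, -, -, -, h6⟩ := he1 r hr
          obtain ⟨h1, β', h2, h3⟩ := hlk r.2
          rw [hlkq]
          exact h6 (lk r.2) β' h1 h2 h3
        · rw [Finsupp.notMem_support_iff.1 hr]
          exact DegLE.zero _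
      choose! E hE1 hE2 hE3 using ih
      refine ⟨∑ r' ∈ e'.support, e' r' • E r', ?_, ?_, ?_⟩
      · intro r hr
        rw [Finsupp.mem_support_iff, Finsupp.finsetSum_apply] at hr
        obtain ⟨r', hr', hne⟩ := Finset.exists_ne_zero_of_sum_ne_zero hr
        rw [Finsupp.smul_apply, smul_eq_mul] at hne
        exact hE1 r' (hgood r' hr') r (Finsupp.mem_support_iff.2 (right_ne_zero_of_mul hne))
      · intro r
        rw [Finsupp.finsetSum_apply]
        refine DegLE.sum fun r' hr' => ?_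
        rw [Finsupp.smul_apply, smul_eq_mul]
        exact (hdeg' r').mul_le (hE2 r' (hgood r' hr') r) (by push_cast; omega)
      · have h1 : X.B q.1 q.2 y - Phi X y (∑ r' ∈ e'.support, e' r' • E r') =
            (X.B q.1 q.2 y - Phi X y e') +
              ∑ r' ∈ e'.support, e' r' • (X.B r'.1 r'.2 y - Phi X y (E r')) := by
          rw [map_sum, Phi_eq_sum X y e']
          simp only [map_smul, smul_sub, Finset.sum_sub_distrib]
          abel
        rw [h1]
        refine add_mem (hLI he2) (Submodule.sum_mem _ fun r' hr' => Submodule.smul_mem _ _ ?_)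
        exact hE3 r' (hgood r' hr')

end gen

theorem h_d_6 (hPC : G_PC) (hAP : A_P) (hC7b : C_7b) (hD5 : D_5) (hH2 : H_2) : D_6 := by
  classical
  intro S W H _ _ _ X M n hBdd hCC
  obtain ⟨C, hC⟩ := exists_bound hH2 X hBdd
  obtain ⟨⟨N', hN'⟩, -⟩ := hAP S W H X.toBase X.K X.α X.pgK
  have hlk : ∀ w, ∃ κ, κ ∈ par X.cs X.K ∧ ∃ β, XL X.cs X.K β ∧ w = κ * β := by
    intro w
    obtain ⟨-, -, -, h4, -⟩ := hPC S W X.M X.cs X.K
    obtain ⟨κ, hκ, β, hβ, hw⟩ := h4 w
    exact ⟨κ, hκ, β, hβ, hw⟩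
  choose lk hlk' using hlk
  -- outer induction
  have main : ∀ n' : ℕ, n' ≤ n → ∀ x g y, X.Adm x g y → M < X.α g → X.nn x g y = n' →
      X.B x g y ∈ ApS X M n' := by
    intro n'
    induction n' using Nat.strong_induction_on with
    | _ n' outer =>
      intro hn'
      have hlt : ∀ x g y, X.Adm x g y → M < X.α g → X.nn x g y < n' → X.B x g y ∈ ApS X M n' := by
        intro x g y h1 h2 h3
        exact ApS_mono h3.le (outer _ h3 (h3.le.trans hn') x g y h1 h2 rfl)
      -- inner induction, type `b` triples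
      have inner : ∀ s : ℕ, ∀ b x g y, X.Tp b x g y → M < X.α g → X.nn x g y = n' → X.sl x = s →
          X.B x g y ∈ ApS X M n' := by
        intro s
        induction s using Nat.strong_induction_on with
        | _ s ihs =>
          intro b x g y htp hM hnn hs
          have hLI : X.LI M n' s ≤ ApS X M n' := by
            refine Submodule.span_le.2 ?_
            rintro _ ⟨x', g', y', h1, h2, h3, rfl⟩
            rcases h3 with h3 | ⟨h3, h4, h5⟩
            · exact hlt x' g' y' h1 h2 h3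
            · rcases lt_or_eq_of_le h3 with h6 | h6
              · exact hlt x' g' y' h1 h2 h6
              · rcases h1 with ⟨c, k1, k2, k3⟩ | ⟨k1, k2, k3⟩
                · exact ihs (X.sl x') h5 c x' g' y' ⟨k1, k2, h4, k3⟩ h2 h6 rfl
                · exact absurd k2 h4
          have hn2 : s + 1 + X.sl y = n' := by
            rw [← hnn, nn_tp htp.2.2.1, hs]
          refine ApS_of_approx fun r => ?_
          obtain ⟨e, he1, he2, he3⟩ := iter hPC hD5 X M n' s b y (CC_mono hCC hn') lk hlk' hLI hn2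
            (r + C + N') (x, g) ⟨htp, hs, hM⟩
          refine ⟨X.B x g y - Phi X y e, he3, ?_⟩
          rw [sub_sub_cancel, Phi_eq_sum]
          refine DZ.sum fun q _ => ?_
          refine DZ.mono (DZ.smul (he2 q) (hC q.1 q.2 y)) ?_
          have h1 : X.α (lk q.2) ≤ N' := hN' _ (hlk' q.2).1
          push_cast
          omega
      intro x g y hadm hM hnn
      by_cases hg : g ∈ par X.cs X.K
      · by_cases hxy : x = 1 ∧ y = 1
        · exact ApS_of_Ch ⟨hM, Or.inl ⟨hxy.1, hxy.2, hg⟩⟩ hnn.le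
        · have hxy' : x ≠ 1 ∨ y ≠ 1 := by
            by_contra hcon
            push Not at hcon
            exact hxy hcon
          obtain ⟨e, he1, he2⟩ := hC7b S W H X x g y hadm hg hxy'
          rw [he1]
          refine Submodule.sum_mem _ fun r hr => Submodule.smul_mem _ _ ?_
          obtain ⟨h1, h2, h3, -⟩ := he2 r hr
          rcases h3 with h3 | ⟨h3, h4, -⟩
          · exact hlt _ _ _ h1 (hM.trans_le h2) (by omega)
          · rcases h1 with ⟨c, k1, k2, k3⟩ | ⟨k1, k2, k3⟩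
            · exact inner _ c _ _ _ ⟨k1, k2, h4, k3⟩ (hM.trans_le h2) (by omega) rfl
            · exact absurd k2 h4
      · rcases hadm with ⟨c, k1, k2, k3⟩ | ⟨k1, k2, k3⟩
        · exact inner _ c _ _ _ ⟨k1, k2, hg, k3⟩ hM hnn rfl
        · exact absurd k2 hg
  intro x g y hadm hM hnn
  exact ApS_mono hnn (main _ hnn x g y hadm hM rfl)

end Pool.Agent.Helper25.AM
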